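import Pool.Agent.L7h14.QX.FinH
import Pool.Agent.L7h53.QX.Nz
import Pool.Agent.L7h56.QX.Det

/-! QX: 29 points of one multiplicity, all multiplicities and all degrees. -/

set_option autoImplicit false

namespace Pool.Agent.L7h14.QX

open Pool.Agent.TH176.Nag Pool.Agent.TH603.Sur

theorem parts : Parts := partsH L7h53.QX.s_NZ L7h56.QX.s_DET

/-- **29 points of one multiplicity, in every degree: no curve, or independent conditions** -/
theorem dich29 (m d : ℕ) : Emp (fun _ : Fin 29 => m) (TZ d) ∨ Sur (fun _ : Fin 29 => m) (TZ d) :=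
  dich29all parts m d

end Pool.Agent.L7h14.QX
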