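import Pool.Agent.L7h14.QX.LeadX
import Pool.Agent.TH978.S13.Step3

/-!
# Project QX, part MAIN: two or three deficient rows
-/

set_option autoImplicit false

namespace Pool.Agent.L7h14.QX

open Finset Pool.Agent.TH176.Nag Pool.Agent.TH978.S13 Pool.Agent.L7h14.NQ
open Pool.Agent.TH469.SX (Fl)
open Pool.Agent.TH864.SX (Slp)

/-- the block with the extra points is empty -/
theorem Emp_BlkX (hNZ : S_NZ) {n M m : ℕ} {K D : ℝ} (hK : 0 < K) (hK2 : K ^ 2 = M * K + M)
    (h0 : 0 ≤ D - (K + 2) * m) (h1 : D - (K + 2) * m < 1) (hnm : n ≤ m) (hn : ∀ j : Fin n, (j : ℕ) ≤ M + 2)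
    (l u : Fin n → ℕ)
    (hl1 : ∀ s, 1 ≤ l s) (hlm : ∀ s, l s ≤ m) (hul : ∀ s, u s < l s)
    (hdef : ∀ s, ⌊D - (K + 2) * ((m - l s : ℕ) : ℝ)⌋ +
      ⌊(D - (K + 2) * ((m - l s : ℕ) : ℝ) - 1) / (K + 1)⌋ <
      ((M : ℤ) + 4) * ((m : ℤ) - ((m - l s : ℕ) : ℤ)))
    (hu : ∀ s, (u s : ℤ) = ⌊(D - (K + 2) * ((m - l s : ℕ) : ℝ) - 1) / (K + 1)⌋ - l s)
    (hdet : (Matrix.of fun s j : Fin n => ev (Ls m (l s) (u s)) j (m - j + u s)).det ≠ 0) :
    Emp (fun _ : Fin (M + 4) => m) (BlkX K D n) := by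
  classical
  obtain ⟨y0, hy0, hy1, hz⟩ := lead_zeroX hNZ hK hK2 h0 h1 hnm l u hl1 hlm hul hdef hu hdet
  have htv : tv ℚ ≠ 0 := by
    intro h
    have := congrArg (fun u : LaurentSeries ℚ => u.coeff 1) h
    simp [tv] at this
  have hcst : ∀ a : ℚ, a ≠ 0 → (cst a : LaurentSeries ℚ) ≠ 0 := by
    intro a ha h
    have h2 : (HahnSeries.C : ℚ →+* LaurentSeries ℚ) a = (HahnSeries.C : ℚ →+* LaurentSeries ℚ) 0 := by
      rw [map_zero]; exact h
    exact ha (HahnSeries.C_injective h2)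
  have hK1 : 0 < K + 1 := by linarith
  have hrel : ((M : ℝ) + 3) * (K + 1) = (K + 1) * (K + 2) + 1 := by linarith
  refine ⟨LaurentSeries ℚ, inferInstance, inferInstance,
    fun i => if (i : ℕ) < M + 3 then cst (((i : ℕ) : ℚ) + 1) else tv ℚ * cst (1 : ℚ),
    fun i => if (i : ℕ) < M + 3 then 1 else cst y0, ?_, ?_, ?_⟩
  · intro i
    dsimp only
    split_ifs
    · exact hcst _ (by positivity)
    · exact mul_ne_zero htv (hcst _ one_ne_zero)
  · intro i
    dsimp only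
    split_ifs
    · exact one_ne_zero
    · exact hcst _ hy0
  intro f hfS hfL
  by_contra hf
  obtain ⟨g, hg, hgf, hgL, hgh⟩ := lead_form (m := m) (fun i : Fin (M + 3) => ((i : ℕ) : ℚ) + 1) 1 y0 hf
    (by
      intro i
      have := hfL ⟨i, by have := i.2; omega⟩
      simpa [i.2] using this)
    (by
      have := hfL ⟨M + 3, by omega⟩
      simpa using this)
  apply hg
  refine hz g (fun p hp => hfS (hgf hp)) ?_ hgL
  intro c k hk hck
  obtain ⟨h, hhf, hhL, hhc, hhg⟩ := hgh c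
  rw [← tau_congr hhg]
  refine line_tau (fun i : Fin (M + 3) => ((i : ℕ) : ℚ) + 1) ?_ ?_ hhL hhc ?_ (β := D - (K + 2) * k) ?_ ?_
  · intro i j hij
    simp only [add_left_inj, Nat.cast_inj] at hij
    exact Fin.ext hij
  · intro i
    positivity
  · intro p hp
    rcases hfS (hhf hp) with h3 | h3
    · exact h3.2.1
    · obtain ⟨j, hj⟩ := h3
      rw [hj]
      simp only
      omega
  · intro p hp hkp
    rcases hfS (hhf hp) with h3 | h3
    · have h4 := h3.2.2
      have h5 : (k : ℝ) ≤ (p.2 : ℝ) - p.1 + 1 := by exact_mod_cast hkp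
      nlinarith
    · obtain ⟨j, hj⟩ := h3
      have hj2 := j.2
      rw [hj] at hkp ⊢
      simp only at hkp ⊢
      have hkj : k ≤ (j : ℕ) := by omega
      have hkR : (k : ℝ) ≤ (j : ℕ) := by exact_mod_cast hkj
      have hjm : ((j : ℕ) : ℝ) + 1 ≤ m := by
        have : (j : ℕ) + 1 ≤ m := by omega
        exact_mod_cast this
      push_cast
      nlinarith
  · rw [Fintype.card_fin, Nat.cast_sub hk.le]
    push_cast
    have h6 : (D - (K + 2) * k - c) * (K + 1) < ((M : ℝ) + 3) * (m - k) * (K + 1) := by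
      have : ((M : ℝ) + 3) * (m - k) * (K + 1) = (m - k) * (((M : ℝ) + 3) * (K + 1)) := by ring
      rw [this, hrel]
      nlinarith
    exact lt_of_mul_lt_mul_right h6 hK1.le

/-- the block with the extra points, in the coordinates of `Fl` -/
theorem Emp_extX {n M m : ℕ} {K A : ℝ}
    (h : Emp (fun _ : Fin (M + 4) => m) (BlkX K A n)) :
    Emp (fun _ : Fin (M + 4) => m) (Fl 1 K A ∪ {p | ∃ j : Fin n, p = (((j : ℕ) : ℤ), ((j : ℕ) : ℤ))}) := by
  refine h.comap 1 (-2) 1 (-1) 0 (-1) (by norm_num) ?_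
  rintro ⟨x, s⟩ h
  rcases h with ⟨g1, g2, g3, g4⟩ | ⟨j, h⟩
  · simp only at g1 g2 g3 g4
    push_cast at g3
    left
    refine ⟨by simp only; omega, by simp only; omega, ?_⟩
    simp only
    push_cast
    linarith
  · rw [Prod.mk.injEq] at h
    right
    refine ⟨j, ?_⟩
    rw [h.1, h.2]
    ext
    · simp only; ring
    · simp only; ring

/-- the data of a deficient row -/
theorem row_data {M m k : ℕ} {K A : ℝ} (hK : 0 < K) (h0 : (K + 2) * m ≤ A) (h1 : A < (K + 2) * m + 1)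
    (hd : Def M K A m k) :
    ∃ l u : ℕ, l + k = m ∧ 1 ≤ l ∧ l ≤ m ∧ u < l ∧
      (u : ℤ) = ⌊(A - (K + 2) * ((m - l : ℕ) : ℝ) - 1) / (K + 1)⌋ - l ∧
      (u : ℤ) = ⌊(A - (K + 2) * m + l - 1) / (K + 1)⌋ ∧
      ⌊A - (K + 2) * ((m - l : ℕ) : ℝ)⌋ + ⌊(A - (K + 2) * ((m - l : ℕ) : ℝ) - 1) / (K + 1)⌋ <
      ((M : ℤ) + 4) * ((m : ℤ) - ((m - l : ℕ) : ℤ)) := by
  obtain ⟨hk, hd⟩ := hd
  obtain ⟨l, hl⟩ : ∃ l : ℕ, l + k = m := ⟨m - k, by omega⟩
  have hl1 : 1 ≤ l := by omega
  have hk' : m - l = k := by omega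
  have hK1 : 0 < K + 1 := by linarith
  have hmR : (m : ℝ) = l + k := by rw [← hl]; push_cast; ring
  have hlR : (1 : ℝ) ≤ l := by exact_mod_cast hl1
  obtain ⟨v, hv⟩ : ∃ v : ℤ, v = ⌊(A - (K + 2) * m + l - 1) / (K + 1)⌋ := ⟨_, rfl⟩
  have hv0 : 0 ≤ v := by
    rw [hv, Int.floor_nonneg]
    apply div_nonneg _ hK1.le
    linarith
  have hvl : v < l := by
    rw [hv, Int.floor_lt, div_lt_iff₀ hK1]
    push_cast
    nlinarith
  have hform : (A - (K + 2) * (k : ℝ) - 1) / (K + 1) = (A - (K + 2) * m + l - 1) / (K + 1) + (l : ℕ) := by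
    rw [hmR]
    field_simp
    ring
  refine ⟨l, v.toNat, hl, hl1, by omega, by omega, ?_, by omega, ?_⟩
  · rw [hk', hform, Int.floor_add_natCast]
    omega
  · rw [hk']
    exact hd

/-- the exponents `u` increase -/
theorem u_mono {m l l' u u' : ℕ} {K A : ℝ} (hK : 0 < K)
    (hu : (u : ℤ) = ⌊(A - (K + 2) * m + l - 1) / (K + 1)⌋)
    (hu' : (u' : ℤ) = ⌊(A - (K + 2) * m + l' - 1) / (K + 1)⌋) (h : l ≤ l') : u ≤ u' := by
  have hK1 : 0 < K + 1 := by linarith
  have hR : (l : ℝ) ≤ l' := by exact_mod_cast h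
  have : (u : ℤ) ≤ u' := by
    rw [hu, hu']
    apply Int.floor_le_floor
    apply div_le_div_of_nonneg_right _ hK1.le
    linarith
  exact_mod_cast this

theorem s_MAIN (hNZ : S_NZ) (hDET : S_DET) : S_MAIN := by
  intro M K A m h hM3 h0 h1
  have hK := h.K0
  have hK2 : K ^ 2 = M * K + M := by
    have := h.eq
    push_cast at this
    linarith
  have h0' : 0 ≤ A - (K + 2) * m := by linarith
  have h1' : A - (K + 2) * m < 1 := by linarith
  constructor
  · intro k₁ k₂ hk hd1 hd2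
    obtain ⟨l1, u1, e1, a1, b1, c1, f1, g1, d1⟩ := row_data hK h0 h1 hd1
    obtain ⟨l2, u2, e2, a2, b2, c2, f2, g2, d2⟩ := row_data hK h0 h1 hd2
    have hdet := hDET.1 m ![l2, l1] ![u2, u1] (by simp only [Matrix.cons_val_zero, Matrix.cons_val_one]; omega)
      (by simp only [Matrix.cons_val_zero, Matrix.cons_val_one]; exact u_mono hK g2 g1 (by omega))
      (by
        intro s
        fin_cases s
        · exact ⟨a2, b2, c2⟩
        · exact ⟨a1, b1, c1⟩)
    have key := Emp_BlkX (n := 2) (M := M) hNZ hK hK2 h0' h1' (by omega) (by intro j; omega) ![l2, l1] ![u2, u1]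
      (by intro s; fin_cases s; exacts [a2, a1]) (by intro s; fin_cases s; exacts [b2, b1])
      (by intro s; fin_cases s; exacts [c2, c1]) (by intro s; fin_cases s; exacts [d2, d1])
      (by intro s; fin_cases s; exacts [f2, f1]) hdet
    refine (Emp_extX key).mono ?_
    rintro p (hp | hp)
    · exact Or.inl hp
    · right
      rcases hp with hp | hp
      · exact ⟨0, by rw [hp]; simp⟩
      · refine ⟨1, ?_⟩
        rw [Set.mem_singleton_iff] at hp
        rw [hp]; simp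
  · intro k₁ k₂ k₃ hk hk' hd1 hd2 hd3
    obtain ⟨l1, u1, e1, a1, b1, c1, f1, g1, d1⟩ := row_data hK h0 h1 hd1
    obtain ⟨l2, u2, e2, a2, b2, c2, f2, g2, d2⟩ := row_data hK h0 h1 hd2
    obtain ⟨l3, u3, e3, a3, b3, c3, f3, g3, d3⟩ := row_data hK h0 h1 hd3
    have hdet := hDET.2 m ![l3, l2, l1] ![u3, u2, u1]
      (by simp only [Matrix.cons_val_zero, Matrix.cons_val_one]; omega)
      (by
        show l2 < l1
        omega)
      (by
        show u3 ≤ u2
        exact u_mono hK g3 g2 (by omega))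
      (by
        show u2 ≤ u1
        exact u_mono hK g2 g1 (by omega))
      (by
        intro s
        fin_cases s
        · exact ⟨a3, b3, c3⟩
        · exact ⟨a2, b2, c2⟩
        · exact ⟨a1, b1, c1⟩)
    have key := Emp_BlkX (n := 3) (M := M) hNZ hK hK2 h0' h1' (by omega) (by intro j; omega)
      ![l3, l2, l1] ![u3, u2, u1]
      (by intro s; fin_cases s; exacts [a3, a2, a1]) (by intro s; fin_cases s; exacts [b3, b2, b1])
      (by intro s; fin_cases s; exacts [c3, c2, c1]) (by intro s; fin_cases s; exacts [d3, d2, d1])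
      (by intro s; fin_cases s; exacts [f3, f2, f1]) hdet
    refine (Emp_extX key).mono ?_
    rintro p (hp | hp)
    · exact Or.inl hp
    · right
      rcases hp with hp | hp | hp
      · exact ⟨0, by rw [hp]; simp⟩
      · exact ⟨1, by rw [hp]; simp⟩
      · refine ⟨2, ?_⟩
        rw [Set.mem_singleton_iff] at hp
        rw [hp]; simp

end Pool.Agent.L7h14.QX
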