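import Pool.Agent.L7h14.QX.TwentyNine
import Pool.Agent.L7h14.QX.Main
import Pool.Agent.L7h14.NQ.Dz
import Pool.Agent.L7h43.QU.Fin
import Pool.Agent.L7h50.QX.DX
import Pool.Agent.L7h44.QX.Cnt
import Pool.Agent.L7h44.QX.Rowx
import Pool.Agent.L7h10.QX.Flz5
import Pool.Agent.L7h10.QX.Flx
import Pool.Agent.L7h10.QX.One5

/-! QX: the parts put together, given `S_NZ` and `S_DET`. -/

set_option autoImplicit false

namespace Pool.Agent.L7h14.QX

theorem partsH (hNZ : S_NZ) (hDET : S_DET) : Parts where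
  emp := L7h43.QU.emp
  sur := L7h43.QU.sur
  fle := L7h79.QU.s_FLE
  fls := L7h79.QU.s_FLS
  one := L7h23.QU.s_ONE
  flz := L7h10.QX.s_FLZ5
  onez := L7h10.QX.s_ONEZ5
  flx := L7h10.QX.s_FLX
  onex := L7h10.QX.s_ONEX5
  dx := L7h50.QX.s_DX (fun _ _ _ _ hS hm h0 hA => L7h44.QX.rowx hS hm h0 hA) L7h44.QX.s_CNT
    (s_MAIN hNZ hDET)
  dz := L7h14.NQ.s_DZ

end Pool.Agent.L7h14.QX
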