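import Pool.Agent.L7h14.QX.Stm

/-!
# Project QX, part MAIN: the block with several extra points `(c, b) = (-j, -1)`
-/

set_option autoImplicit false

namespace Pool.Agent.L7h14.QX

open Finset Pool.Agent.TH176.Nag Pool.Agent.TH978.S13 Pool.Agent.L7h14.NQ

/-- the flattened block in the coordinates `c = x - 2 s`, `b = x - s - 1`, with the points `(-j, -1)`, `j < n` -/
def BlkX (K D : ℝ) (n : ℕ) : Set (ℤ × ℤ) :=
  {p | 0 ≤ p.2 ∧ 0 ≤ p.2 - p.1 + 1 ∧ (p.1 : ℝ) + (K + 2) * (p.2 - p.1 + 1) ≤ D} ∪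
    {p | ∃ j : Fin n, p = (-((j : ℕ) : ℤ), -1)}

theorem exists_psiX (j κ : ℕ) : ∃ ψ : (ℤ × ℤ) →₀ ℚ,
    (∀ p ∈ ψ.support, p.1 = -(j : ℤ) ∧ -1 ≤ p.2 ∧ p.2 < κ) ∧ ψ (-(j : ℤ), -1) = 1 ∧
      ∀ k < κ, tau ψ (-(j : ℤ)) (fun b => dsc k (b + 1)) = 0 := by
  obtain ⟨φ, h1, h2, h3⟩ := exists_psi κ
  refine ⟨φ.embDomain (sh (-(j : ℤ)) 0), ?_, ?_, ?_⟩
  · rintro ⟨c, b⟩ hp
    rw [Finsupp.mem_support_iff, emb_sh] at hp
    have := h1 _ (Finsupp.mem_support_iff.2 hp)
    simp only at this ⊢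
    omega
  · rw [emb_sh]
    simpa using h2
  · intro k hk
    rw [tau_sh, sub_self]
    have := h3 k hk
    rw [← this]
    congr 1
    funext b
    simp

theorem tau_sum_smul {n : ℕ} (f : (ℤ × ℤ) →₀ ℚ) (α : Fin n → ℚ) (ψ : Fin n → ((ℤ × ℤ) →₀ ℚ)) (c : ℤ)
    (Q : ℚ → ℚ) : tau (f - ∑ j, α j • ψ j) c Q = tau f c Q - ∑ j, α j * tau (ψ j) c Q := by
  have key : ∀ s : Finset (Fin n), tau (f - ∑ j ∈ s, α j • ψ j) c Q =
      tau f c Q - ∑ j ∈ s, α j * tau (ψ j) c Q := by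
    intro s
    induction s using Finset.induction_on with
    | empty => simp
    | insert a s ha ih =>
      rw [sum_insert ha, sum_insert ha]
      have e : f - (α a • ψ a + ∑ j ∈ s, α j • ψ j) = (f - ∑ j ∈ s, α j • ψ j) - α a • ψ a := by abel
      rw [e, tau_sub_smul, ih]
      ring
  exact key univ

theorem oprs_sum_smul {n : ℕ} (L : List (ℚ × ℚ)) (f : (ℤ × ℤ) →₀ ℚ) (α : Fin n → ℚ)
    (ψ : Fin n → ((ℤ × ℤ) →₀ ℚ)) :
    oprs L (f - ∑ j, α j • ψ j) = oprs L f - ∑ j, α j • oprs L (ψ j) := by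
  have key : ∀ s : Finset (Fin n), oprs L (f - ∑ j ∈ s, α j • ψ j) =
      oprs L f - ∑ j ∈ s, α j • oprs L (ψ j) := by
    intro s
    induction s using Finset.induction_on with
    | empty => simp
    | insert a s ha ih =>
      rw [sum_insert ha, sum_insert ha]
      have e : f - (α a • ψ a + ∑ j ∈ s, α j • ψ j) = (f - ∑ j ∈ s, α j • ψ j) - α a • ψ a := by abel
      rw [e, oprs_sub_smul, ih]
      abel
  exact key univ

theorem pr_sum_smul {n : ℕ} (α : Fin n → ℚ) (ψ : Fin n → ((ℤ × ℤ) →₀ ℚ)) (x y : ℚ) (P : ℚ × ℚ → ℚ) :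
    pr (∑ j, α j • ψ j) x y P = ∑ j, α j * pr (ψ j) x y P := by
  have hadd : ∀ f g : (ℤ × ℤ) →₀ ℚ, pr (f + g) x y P = pr f x y P + pr g x y P := by
    intro f g
    unfold pr
    rw [Finsupp.sum_add_index (by intro p _; simp) (by intro p _ a b; ring)]
  have hsm : ∀ (a : ℚ) (f : (ℤ × ℤ) →₀ ℚ), pr (a • f) x y P = a * pr f x y P := by
    intro a f
    unfold pr
    rw [Finsupp.sum_smul_index (by intro p; simp), Finsupp.mul_sum]
    refine Finsupp.sum_congr fun p _ => ?_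
    ring
  have key : ∀ s : Finset (Fin n), pr (∑ j ∈ s, α j • ψ j) x y P = ∑ j ∈ s, α j * pr (ψ j) x y P := by
    intro s
    induction s using Finset.induction_on with
    | empty => simp [pr]
    | insert a s ha ih => rw [sum_insert ha, sum_insert ha, hadd, hsm, ih]
  exact key univ

section main

variable {n : ℕ} {K D : ℝ} {m : ℕ} {κ : Fin n → ℕ} {g : (ℤ × ℤ) →₀ ℚ} {ψ : Fin n → ((ℤ × ℤ) →₀ ℚ)}

/-- the nonzero Taylor coefficients at `Y = 1` of the columns -/
theorem tau_neX (hK : 0 < K) (h0 : 0 ≤ D - (K + 2) * m) (h1 : D - (K + 2) * m < 1)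
    (hκ : ∀ (j : Fin n) (k : ℕ), k < κ j ↔ k < m ∧ (D - (K + 2) * m + (j : ℕ)) * (K + 1) < (m : ℝ) - k)
    (hg : ∀ p ∈ g.support, p ∈ BlkX K D n)
    (hV : ∀ (c : ℤ) (k : ℕ), k < m → (D - (K + 2) * m - c) * (K + 1) < (m : ℝ) - k →
      tau g c (fun b => dsc k (b - c + 1)) = 0)
    (hψ : ∀ j, ∀ p ∈ (ψ j).support, p.1 = -((j : ℕ) : ℤ) ∧ -1 ≤ p.2 ∧ p.2 < κ j)
    (hψ1 : ∀ j, ψ j (-((j : ℕ) : ℤ), -1) = 1)
    (hψt : ∀ j, ∀ k < κ j, tau (ψ j) (-((j : ℕ) : ℤ)) (fun b => dsc k (b + 1)) = 0)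
    {c : ℤ} {k : ℕ} (ht : tau (g - ∑ j : Fin n, g (-((j : ℕ) : ℤ), -1) • ψ j) c (dsc k) ≠ 0) :
    c ≤ 0 ∧ k < m ∧ (m : ℝ) - k ≤ (D - (K + 2) * m - c) * (K + 1) ∧
      (-(c : ℝ)) * (K + 1) ≤ (K + 2) * ((m : ℝ) - k - 1) + (D - (K + 2) * m) := by
  obtain ⟨e, he⟩ : ∃ e : ℝ, e = D - (K + 2) * m := ⟨_, rfl⟩
  rw [← he] at h0 h1 hV ⊢
  simp only [← he] at hκ
  have hK1 : 0 < K + 1 := by linarith
  have hψ0 : ∀ (j : Fin n) (p : ℤ × ℤ), (p.1 ≠ -((j : ℕ) : ℤ) ∨ p.2 < -1 ∨ (κ j : ℤ) ≤ p.2) →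
      ψ j p = 0 := by
    intro j p hp
    by_contra hne
    have := hψ j p (Finsupp.mem_support_iff.2 hne)
    omega
  have hG : ∀ p : ℤ × ℤ, (g - ∑ j : Fin n, g (-((j : ℕ) : ℤ), -1) • ψ j) p =
      g p - ∑ j : Fin n, g (-((j : ℕ) : ℤ), -1) * ψ j p := by
    intro p
    rw [Finsupp.sub_apply, Finsupp.finsetSum_apply]
    simp
  -- columns `c ≥ 1`
  have hc : c ≤ 0 := by
    by_contra hc
    push Not at hc
    have hcR : (1 : ℝ) ≤ (c : ℝ) := by exact_mod_cast hc
    apply ht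
    have hmem : ∀ b : ℤ, g (c, b) ≠ 0 → 0 ≤ b - c + 1 ∧ (b - c + 1 : ℤ) < m := by
      intro b hb
      have h3 := hg _ (Finsupp.mem_support_iff.2 hb)
      rcases h3 with h3 | h3
      · obtain ⟨h4, h5, h6⟩ := h3
        simp only at h4 h5 h6
        refine ⟨h5, ?_⟩
        have h7 : ((b - c + 1 : ℤ) : ℝ) < m := by
          push_cast
          by_contra h8
          push Not at h8
          nlinarith
        exact_mod_cast h7
      · obtain ⟨j, hj⟩ := h3
        rw [Prod.mk.injEq] at hj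
        omega
    have hgz : ∀ b : ℤ, g (c, b) = 0 := by
      refine eq_zero_of_tau_shift (s := 1 - c) ?_ ?_
      · intro b hb
        by_contra hne
        have := (hmem b hne).1
        omega
      · intro l
        have e1 : (fun b : ℚ => (dsc l (b + ((1 - c : ℤ) : ℚ)) : ℚ)) = fun b : ℚ => dsc l (b - c + 1) := by
          funext b
          congr 1
          push_cast
          ring
        rw [e1]
        by_cases hl : l < m
        · apply hV c l hl
          have : ((l : ℕ) : ℝ) + 1 ≤ m := by exact_mod_cast hl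
          nlinarith
        · apply tau_eq_zero
          intro b hb
          have h3 := hmem b hb
          have e2 : (b : ℚ) - c + 1 = ((b - c + 1 : ℤ) : ℚ) := by push_cast; ring
          rw [e2]
          apply dsc_eq_zero h3.1
          have : (m : ℤ) ≤ l := by exact_mod_cast not_lt.1 hl
          omega
    apply tau_eq_zero
    intro b hb
    exfalso
    apply hb
    rw [hG, hgz, zero_sub, neg_eq_zero]
    refine sum_eq_zero fun j _ => ?_
    rw [hψ0 j (c, b) (Or.inl (by simp only; omega)), mul_zero]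
  obtain ⟨u, hu⟩ := Int.eq_ofNat_of_zero_le (show 0 ≤ -c by omega)
  -- the forced coefficients
  have hKp0 : ¬ (k < m ∧ (e - c) * (K + 1) < (m : ℝ) - k) := by
    rintro ⟨hkm, hlt⟩
    apply ht
    rw [tau_sum_smul]
    have hgt : tau g c (dsc k) = 0 := by
      refine tau_shift (κ := k + 1) (u + 1) ?_ k (by omega)
      intro k' hk'
      have h4 := hV c k' (by omega) (by
        have : (k' : ℝ) ≤ k := by exact_mod_cast Nat.lt_succ_iff.1 hk'
        linarith)
      convert h4 using 2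
      funext b
      congr 1
      have : (u : ℚ) = -(c : ℚ) := by
        have : ((u : ℤ) : ℚ) = ((-c : ℤ) : ℚ) := by rw [hu]
        push_cast at this
        exact this
      push_cast
      rw [this]
      ring
    rw [hgt, zero_sub, neg_eq_zero]
    refine sum_eq_zero fun j _ => ?_
    have hψt' : tau (ψ j) c (dsc k) = 0 := by
      by_cases h5 : c = -((j : ℕ) : ℤ)
      · subst h5
        refine tau_shift (κ := k + 1) 1 ?_ k (by omega)
        intro k' hk'
        have hk'' : k' < κ j := by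
          rw [hκ]
          have : (k' : ℝ) ≤ k := by exact_mod_cast Nat.lt_succ_iff.1 hk'
          push_cast at hlt
          refine ⟨by omega, ?_⟩
          rw [sub_neg_eq_add] at hlt
          linarith
        have h6 := hψt j k' hk''
        rw [← h6]
        congr 1
      · apply tau_eq_zero
        intro b hb
        exact absurd (hψ0 j (c, b) (Or.inl h5)) hb
    rw [hψt', mul_zero]
  -- an element of the column
  obtain ⟨b, hb, hkb⟩ : ∃ b : ℤ, (g - ∑ j : Fin n, g (-((j : ℕ) : ℤ), -1) • ψ j) (c, b) ≠ 0 ∧ (k : ℤ) ≤ b := by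
    by_contra hcon
    push Not at hcon
    apply ht
    apply tau_eq_zero
    intro b hb
    have h3 := hcon b hb
    apply dsc_eq_zero _ h3
    by_contra hneg
    push Not at hneg
    apply hb
    rw [hG]
    by_cases h : ∃ j : Fin n, (c, b) = (-((j : ℕ) : ℤ), -1)
    · obtain ⟨j, hj⟩ := h
      rw [hj, Finset.sum_eq_single j]
      · rw [hψ1]; ring
      · intro j' _ hne
        rw [hψ0 j' _ (Or.inl ?_), mul_zero]
        simp only
        intro h5
        apply hne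
        apply Fin.ext
        omega
      · intro h; exact absurd (mem_univ _) h
    · have hgz : g (c, b) = 0 := by
        by_contra hne
        rcases hg _ (Finsupp.mem_support_iff.2 hne) with h3 | h3
        · have := h3.1
          simp only at this
          omega
        · exact h h3
      rw [hgz, zero_sub, neg_eq_zero]
      refine sum_eq_zero fun j _ => ?_
      rw [hψ0 j, mul_zero]
      by_contra hne
      push Not at hne
      apply h
      simp only at hne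
      exact ⟨j, Prod.ext hne.1 (by simp only; omega)⟩
  have hgb : g (c, b) ≠ 0 := by
    intro h
    rw [hG, h, zero_sub, neg_ne_zero] at hb
    obtain ⟨j, -, hj⟩ := exists_ne_zero_of_sum_ne_zero hb
    have hψb := right_ne_zero_of_mul hj
    have h3 : c = -((j : ℕ) : ℤ) ∧ b < κ j := by
      by_contra hne
      apply hψb
      apply hψ0
      simp only
      by_cases hc0 : c = -((j : ℕ) : ℤ)
      · right; right
        by_contra h4
        exact hne ⟨hc0, by omega⟩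
      · left; exact hc0
    have h4 : k < κ j := by omega
    rw [hκ] at h4
    apply hKp0
    refine ⟨h4.1, ?_⟩
    rw [h3.1]
    push_cast
    rw [sub_neg_eq_add]
    exact h4.2
  have hbR : (k : ℝ) ≤ b := by exact_mod_cast hkb
  have hH : (-(c : ℝ)) * (K + 1) ≤ (K + 2) * ((m : ℝ) - k - 1) + e := by
    rcases hg _ (Finsupp.mem_support_iff.2 hgb) with h3 | h3
    · have h4 := h3.2.2
      simp only at h4
      rw [he]
      nlinarith
    · obtain ⟨j, hj⟩ := h3
      rw [Prod.mk.injEq] at hj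
      omega
  have hcR : (c : ℝ) ≤ 0 := by exact_mod_cast hc
  have hkm : k < m := by
    by_contra hkm
    have h5 : (m : ℝ) ≤ k := by exact_mod_cast not_lt.1 hkm
    nlinarith
  refine ⟨hc, hkm, ?_, hH⟩
  by_contra hlt
  push Not at hlt
  exact hKp0 ⟨hkm, hlt⟩

/-- the covering of the Taylor coefficients by the operators of one deficient row -/
theorem cover {M l u : ℕ} (hK : 0 < K) (hK2 : K ^ 2 = M * K + M) (hl1 : 1 ≤ l) (hlm : l ≤ m)
    (hdef : ⌊D - (K + 2) * ((m - l : ℕ) : ℝ)⌋ + ⌊(D - (K + 2) * ((m - l : ℕ) : ℝ) - 1) / (K + 1)⌋ <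
      ((M : ℤ) + 4) * ((m : ℤ) - ((m - l : ℕ) : ℤ)))
    (hu : (u : ℤ) = ⌊(D - (K + 2) * ((m - l : ℕ) : ℝ) - 1) / (K + 1)⌋ - l) {c : ℤ} {k : ℕ}
    (hkm : k < m) (h5 : (m : ℝ) - k ≤ (D - (K + 2) * m - c) * (K + 1)) (hk : m - l ≤ k) :
    ((m : ℤ) - k) + c + u ≤ l - 1 := by
  obtain ⟨e, he⟩ : ∃ e : ℝ, e = D - (K + 2) * m := ⟨_, rfl⟩
  rw [← he] at h5
  have hK1 : 0 < K + 1 := by linarith
  have hrel : ((M : ℝ) + 3) * (K + 1) = (K + 1) * (K + 2) + 1 := by linarith
  have hks : ((m - l : ℕ) : ℤ) = (m : ℤ) - l := by omega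
  have hksR : ((m - l : ℕ) : ℝ) = (m : ℝ) - l := by exact_mod_cast hks
  have hkR : (m : ℝ) - k ≤ l := by
    have : (m : ℤ) - k ≤ l := by omega
    exact_mod_cast this
  have e1 : D - (K + 2) * ((m - l : ℕ) : ℝ) = e + (K + 2) * l := by rw [he, hksR]; ring
  have hlo : ((m : ℤ) - k) + c - l + ((M : ℤ) + 3) * l ≤ ⌊D - (K + 2) * ((m - l : ℕ) : ℝ)⌋ := by
    rw [Int.le_floor]
    push_cast
    rw [e1]
    have h7 : 0 ≤ K * ((l : ℝ) - (m - k)) := mul_nonneg hK.le (by linarith)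
    have h8 : ((m : ℝ) - k + c - l + (M + 3) * l) * (K + 1) ≤ (e + (K + 2) * l) * (K + 1) := by
      have h9 : ((m : ℝ) - k + c - l + (M + 3) * l) * (K + 1) =
        ((m : ℝ) - k + c - l) * (K + 1) + l * (((M : ℝ) + 3) * (K + 1)) := by ring
      rw [h9, hrel]
      nlinarith
    exact le_of_mul_le_mul_right h8 hK1
  have e2 : (m : ℤ) - ((m - l : ℕ) : ℤ) = l := by omega
  rw [e2] at hdef
  have e3 : ((M : ℤ) + 4) * l = ((M : ℤ) + 3) * l + l := by ring
  rw [e3] at hdef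
  omega

/-- the covering, upper part -/
theorem cover_up {M l u : ℕ} (hK : 0 < K) (hlm : l ≤ m)
    (hu : (u : ℤ) = ⌊(D - (K + 2) * ((m - l : ℕ) : ℝ) - 1) / (K + 1)⌋ - l) {c : ℤ} {k : ℕ}
    (hkm : k < m) (h6 : (-(c : ℝ)) * (K + 1) ≤ (K + 2) * ((m : ℝ) - k - 1) + (D - (K + 2) * m))
    (hk : m - l ≤ k) : -c - ((m : ℤ) - k) + 1 ≤ u := by
  obtain ⟨e, he⟩ : ∃ e : ℝ, e = D - (K + 2) * m := ⟨_, rfl⟩
  rw [← he] at h6
  have hK1 : 0 < K + 1 := by linarith
  have hks : ((m - l : ℕ) : ℤ) = (m : ℤ) - l := by omega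
  have hksR : ((m - l : ℕ) : ℝ) = (m : ℝ) - l := by exact_mod_cast hks
  have hkR : (m : ℝ) - k ≤ l := by
    have : (m : ℤ) - k ≤ l := by omega
    exact_mod_cast this
  have e1 : D - (K + 2) * ((m - l : ℕ) : ℝ) = e + (K + 2) * l := by rw [he, hksR]; ring
  have : -c - ((m : ℤ) - k) + 1 + l ≤ ⌊(D - (K + 2) * ((m - l : ℕ) : ℝ) - 1) / (K + 1)⌋ := by
    rw [Int.le_floor, le_div_iff₀ hK1]
    push_cast
    rw [e1]
    nlinarith
  omega

theorem Ls_cover {l u k : ℕ} {c : ℤ} (hlm : l ≤ m) (hkm : k < m)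
    (h1 : m - l ≤ k → ((m : ℤ) - k) + c + u ≤ l - 1)
    (h2 : m - l ≤ k → -c - ((m : ℤ) - k) + 1 ≤ u) :
    ∃ a ∈ Ls m l u, (k : ℚ) - a.1 - a.2 * c = 0 := by
  by_cases hk : k < m - l
  · refine ⟨((k : ℚ), 0), ?_, by simp⟩
    unfold Ls
    rw [List.mem_append]
    left
    exact List.mem_map.2 ⟨k, List.mem_range.2 hk, rfl⟩
  · have h1' := h1 (by omega)
    have h2' := h2 (by omega)
    set i : ℕ := (((m : ℤ) - k) + c - 1 + u).toNat with hi
    have hiZ : (i : ℤ) = ((m : ℤ) - k) + c - 1 + u := by omega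
    have hiQ : (i : ℚ) = ((m : ℚ) - k) + c - 1 + u := by exact_mod_cast hiZ
    refine ⟨((m : ℚ) - (1 - u + i), 1), ?_, ?_⟩
    · unfold Ls
      rw [List.mem_append]
      right
      exact List.mem_map.2 ⟨i, List.mem_range.2 (by omega), rfl⟩
    · simp only
      rw [hiQ]
      ring

/-- the leading form vanishes -/
theorem lead_zeroX (hNZ : S_NZ) {M : ℕ} (hK : 0 < K) (hK2 : K ^ 2 = M * K + M)
    (h0 : 0 ≤ D - (K + 2) * m) (h1 : D - (K + 2) * m < 1) (hnm : n ≤ m) (l u : Fin n → ℕ)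
    (hl1 : ∀ s, 1 ≤ l s) (hlm : ∀ s, l s ≤ m) (hul : ∀ s, u s < l s)
    (hdef : ∀ s, ⌊D - (K + 2) * ((m - l s : ℕ) : ℝ)⌋ +
      ⌊(D - (K + 2) * ((m - l s : ℕ) : ℝ) - 1) / (K + 1)⌋ <
      ((M : ℤ) + 4) * ((m : ℤ) - ((m - l s : ℕ) : ℤ)))
    (hu : ∀ s, (u s : ℤ) = ⌊(D - (K + 2) * ((m - l s : ℕ) : ℝ) - 1) / (K + 1)⌋ - l s)
    (hdet : (Matrix.of fun s j : Fin n => ev (Ls m (l s) (u s)) j (m - j + u s)).det ≠ 0) :
    ∃ y0 : ℚ, y0 ≠ 0 ∧ y0 ≠ 1 ∧ ∀ g : (ℤ × ℤ) →₀ ℚ, (∀ p ∈ g.support, p ∈ BlkX K D n) →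
      (∀ (c : ℤ) (k : ℕ), k < m → (D - (K + 2) * m - c) * (K + 1) < (m : ℝ) - k →
        tau g c (fun b => dsc k (b - c + 1)) = 0) → LM g 1 y0 m → g = 0 := by
  classical
  obtain ⟨e, he⟩ : ∃ e : ℝ, e = D - (K + 2) * m := ⟨_, rfl⟩
  have hK1 : 0 < K + 1 := by linarith
  -- the exponents of the test functions
  obtain ⟨κ, hκd⟩ : ∃ κ : Fin n → ℕ, ∀ j, κ j = min m ⌈(m : ℝ) - (e + (j : ℕ)) * (K + 1)⌉₊ := ⟨_, fun _ => rfl⟩
  have hκ' : ∀ (j : Fin n) (k : ℕ), k < κ j ↔ k < m ∧ (D - (K + 2) * m + (j : ℕ)) * (K + 1) < (m : ℝ) - k := by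
    intro j k
    rw [hκd, lt_min_iff, Nat.lt_ceil, ← he]
    constructor <;> rintro ⟨h, h'⟩ <;> exact ⟨h, by linarith⟩
  choose ψ hψ hψ1 hψt using fun j : Fin n => exists_psiX (j : ℕ) (κ j)
  obtain ⟨y0, hy0, hy1, hy⟩ := hNZ n (fun s => Ls m (l s) (u s)) κ (fun j => m - (j : ℕ)) u ψ hψ hψ1 hψt
    (by
      intro s j k hk1 hk2
      have hj := j.2
      have hlms := hlm s
      have huls := hul s
      -- a vanishing factor
      have hfac : ∃ a ∈ Ls m (l s) (u s), (k : ℚ) - a.1 + a.2 * (j : ℕ) = 0 := by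
        by_cases hkm : k < m
        · have hnf : ¬ (k < m ∧ (D - (K + 2) * m + (j : ℕ)) * (K + 1) < (m : ℝ) - k) := by
            rw [← hκ']
            omega
          have h5 : (m : ℝ) - k ≤ (D - (K + 2) * m - ((-((j : ℕ) : ℤ) : ℤ) : ℝ)) * (K + 1) := by
            by_contra hcon
            push Not at hcon
            apply hnf
            refine ⟨hkm, ?_⟩
            push_cast at hcon
            linarith
          by_cases hk : k < m - l s
          · refine ⟨((k : ℚ), 0), ?_, by simp⟩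
            unfold Ls
            rw [List.mem_append]
            left
            exact List.mem_map.2 ⟨k, List.mem_range.2 hk, rfl⟩
          · have h6 := cover (c := -((j : ℕ) : ℤ)) hK hK2 (hl1 s) hlms (hdef s) (hu s) hkm h5 (by omega)
            set i : ℕ := (((m : ℤ) - k) - j - 1 + u s).toNat with hi
            have hiZ : (i : ℤ) = ((m : ℤ) - k) - j - 1 + u s := by omega
            have hiQ : (i : ℚ) = ((m : ℚ) - k) - (j : ℕ) - 1 + u s := by exact_mod_cast hiZ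
            refine ⟨((m : ℚ) - (1 - u s + i), 1), ?_, ?_⟩
            · unfold Ls
              rw [List.mem_append]
              right
              exact List.mem_map.2 ⟨i, List.mem_range.2 (by omega), rfl⟩
            · simp only
              rw [hiQ]
              ring
        · set i : ℕ := (((m : ℤ) - k) - j - 1 + u s).toNat with hi
          have hiZ : (i : ℤ) = ((m : ℤ) - k) - j - 1 + u s := by omega
          have hiQ : (i : ℚ) = ((m : ℚ) - k) - (j : ℕ) - 1 + u s := by exact_mod_cast hiZ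
          refine ⟨((m : ℚ) - (1 - u s + i), 1), ?_, ?_⟩
          · unfold Ls
            rw [List.mem_append]
            right
            exact List.mem_map.2 ⟨i, List.mem_range.2 (by omega), rfl⟩
          · simp only
            rw [hiQ]
            ring
      obtain ⟨a, ha, ha0⟩ := hfac
      exact List.prod_eq_zero (List.mem_map.2 ⟨a, ha, ha0⟩))
    (by
      intro s j
      by_contra hcon
      push Not at hcon
      have hj := j.2
      rw [hκ'] at hcon
      obtain ⟨h2, h3⟩ := hcon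
      have e1 : ((m - (j : ℕ) + u s : ℕ) : ℝ) = (m : ℝ) - (j : ℕ) + u s := by
        rw [Nat.cast_add, Nat.cast_sub (by omega)]
      rw [e1] at h3
      have h4 : (0 : ℝ) ≤ (j : ℕ) := Nat.cast_nonneg _
      have h5 : (0 : ℝ) ≤ u s := Nat.cast_nonneg _
      nlinarith)
    hdet
  refine ⟨y0, hy0, hy1, fun g hg hV hLM => ?_⟩
  have hT : ∀ {c : ℤ} {k : ℕ}, tau (g - ∑ j : Fin n, g (-((j : ℕ) : ℤ), -1) • ψ j) c (dsc k) ≠ 0 →
      c ≤ 0 ∧ k < m ∧ (m : ℝ) - k ≤ (D - (K + 2) * m - c) * (K + 1) ∧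
      (-(c : ℝ)) * (K + 1) ≤ (K + 2) * ((m : ℝ) - k - 1) + (D - (K + 2) * m) := fun {c k} ht =>
    tau_neX hK h0 h1 hκ' hg hV hψ hψ1 hψt ht
  have hGneg : ∀ (c b : ℤ), b < 0 → (g - ∑ j : Fin n, g (-((j : ℕ) : ℤ), -1) • ψ j) (c, b) = 0 := by
    have hψ0 : ∀ (j : Fin n) (p : ℤ × ℤ), (p.1 ≠ -((j : ℕ) : ℤ) ∨ p.2 < -1 ∨ (κ j : ℤ) ≤ p.2) →
        ψ j p = 0 := by
      intro j p hp
      by_contra hne
      have := hψ j p (Finsupp.mem_support_iff.2 hne)
      omega
    intro c b hb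
    have hG : (g - ∑ j : Fin n, g (-((j : ℕ) : ℤ), -1) • ψ j) (c, b) =
        g (c, b) - ∑ j : Fin n, g (-((j : ℕ) : ℤ), -1) * ψ j (c, b) := by
      rw [Finsupp.sub_apply, Finsupp.finsetSum_apply]
      simp
    rw [hG]
    by_cases h : ∃ j : Fin n, (c, b) = (-((j : ℕ) : ℤ), -1)
    · obtain ⟨j, hj⟩ := h
      rw [hj, Finset.sum_eq_single j]
      · rw [hψ1]; ring
      · intro j' _ hne
        rw [hψ0 j' _ (Or.inl ?_), mul_zero]
        simp only
        intro h5
        apply hne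
        apply Fin.ext
        omega
      · intro h; exact absurd (mem_univ _) h
    · have hgz : g (c, b) = 0 := by
        by_contra hne
        rcases hg _ (Finsupp.mem_support_iff.2 hne) with h3 | h3
        · have := h3.1
          simp only at this
          omega
        · exact h h3
      rw [hgz, zero_sub, neg_eq_zero]
      refine sum_eq_zero fun j _ => ?_
      rw [hψ0 j, mul_zero]
      by_contra hne
      push Not at hne
      apply h
      simp only at hne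
      exact ⟨j, Prod.ext hne.1 (by simp only; omega)⟩
  -- the operators kill `G`
  have hkill : ∀ s, oprs (Ls m (l s) (u s)) (g - ∑ j : Fin n, g (-((j : ℕ) : ℤ), -1) • ψ j) = 0 := by
    intro s
    ext ⟨c, b⟩
    rw [Finsupp.zero_apply]
    refine eq_zero_of_tau (oprs_pos _ (hGneg c)) (fun k => ?_) b
    rw [tau_oprs]
    by_cases ht : tau (g - ∑ j : Fin n, g (-((j : ℕ) : ℤ), -1) • ψ j) c (dsc k) = 0
    · rw [ht, mul_zero]
    · obtain ⟨h3, h4, h5, h6⟩ := hT ht
      obtain ⟨a, ha, ha0⟩ := Ls_cover (c := c) (hlm s) h4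
        (fun hk => cover hK hK2 (hl1 s) (hlm s) (hdef s) (hu s) h4 h5 hk)
        (fun hk => cover_up (M := M) hK (hlm s) (hu s) h4 h6 hk)
      rw [List.prod_eq_zero (List.mem_map.2 ⟨a, ha, ha0⟩), zero_mul]
  -- the coefficients of the extra points vanish
  have hα : (fun j : Fin n => g (-((j : ℕ) : ℤ), -1)) = 0 := by
    refine Matrix.eq_zero_of_mulVec_eq_zero hy ?_
    funext s
    have hlen : (Ls m (l s) (u s)).length + 1 = m := by
      unfold Ls
      rw [List.length_append, List.length_map, List.length_map, List.length_range, List.length_range]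
      have := hl1 s
      have := hlm s
      omega
    have hL : LM (oprs (Ls m (l s) (u s)) g) 1 y0 1 := LM_oprs hy0 _ (by rw [add_comm, hlen]; exact hLM)
    have h3 := hL _ (mem_PF_mono (K := ℚ) (a := 0) (b := 0) (w := 1) (by omega))
    have h4 : (fun u : ℚ × ℚ => u.1 ^ 0 * u.2 ^ 0) = fun _ => (1 : ℚ) := by
      funext u; simp
    have h5 := hkill s
    rw [oprs_sum_smul, sub_eq_zero] at h5
    rw [h4, h5, pr_sum_smul] at h3
    rw [Matrix.mulVec, dotProduct]
    simp only [Matrix.of_apply, Pi.zero_apply]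
    rw [← h3]
    refine sum_congr rfl fun j _ => ?_
    ring
  have hfg : g - ∑ j : Fin n, g (-((j : ℕ) : ℤ), -1) • ψ j = g := by
    have : ∑ j : Fin n, g (-((j : ℕ) : ℤ), -1) • ψ j = 0 := by
      refine sum_eq_zero fun j _ => ?_
      have := congrFun hα j
      simp only [Pi.zero_apply] at this
      rw [this, zero_smul]
    rw [this, sub_zero]
  rw [hfg] at hT hGneg
  rw [← he] at h0 h1
  refine rows_single (K := ℚ) one_ne_zero hy0 hy1 m 0 g ?_ hLM ?_ ?_
  · rintro ⟨c, b⟩ hp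
    by_contra hneg
    simp only [not_le] at hneg
    exact Finsupp.mem_support_iff.1 hp (hGneg c b hneg)
  · intro c k hk
    by_contra ht
    have := (hT ht).2.1
    omega
  · intro k hk
    refine ⟨Finset.Icc ⌈-(((K + 2) * ((m : ℝ) - k - 1) + e) / (K + 1))⌉ ⌊e - ((m : ℝ) - k) / (K + 1)⌋, ?_, ?_⟩
    · rw [Int.card_Icc]
      have h3 : ((⌊e - ((m : ℝ) - k) / (K + 1)⌋ : ℤ) : ℝ) ≤ e - ((m : ℝ) - k) / (K + 1) := Int.floor_le _
      have h4 : -(((K + 2) * ((m : ℝ) - k - 1) + e) / (K + 1)) ≤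
        ((⌈-(((K + 2) * ((m : ℝ) - k - 1) + e) / (K + 1))⌉ : ℤ) : ℝ) := Int.le_ceil _
      have h5 : (e - ((m : ℝ) - k) / (K + 1)) - (-(((K + 2) * ((m : ℝ) - k - 1) + e) / (K + 1))) <
          (m : ℝ) - k := by
        have : (e - ((m : ℝ) - k) / (K + 1)) - (-(((K + 2) * ((m : ℝ) - k - 1) + e) / (K + 1))) =
          (m : ℝ) - k - ((K + 2) * (1 - e)) / (K + 1) := by
          field_simp
          ring
        rw [this]
        have : 0 < ((K + 2) * (1 - e)) / (K + 1) := by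
          apply div_pos _ hK1
          apply mul_pos <;> linarith
        linarith
      have h6 : ((⌊e - ((m : ℝ) - k) / (K + 1)⌋ - ⌈-(((K + 2) * ((m : ℝ) - k - 1) + e) / (K + 1))⌉ : ℤ) : ℝ) <
          ((m - k : ℤ) : ℝ) := by
        push_cast
        linarith
      have h7 := Int.cast_lt.1 h6
      omega
    · intro c ht
      rw [zero_add] at ht
      obtain ⟨h3, h4, h5, h6⟩ := hT ht
      rw [← he] at h5 h6
      rw [Finset.mem_Icc, Int.ceil_le, Int.le_floor]
      constructor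
      · rw [neg_le, le_div_iff₀ hK1]
        exact h6
      · rw [le_sub_iff_add_le, ← le_sub_iff_add_le', div_le_iff₀ hK1]
        exact h5

end main

end Pool.Agent.L7h14.QX
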