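import Pool.Agent.L7h14.NQ.Dz
import Pool.Agent.L7h43.QU.Stm

/-!
# Project QX: 29 points in ALL degrees (the degrees `d ≡ 0, 1` modulo `5`), on top of NQ and QU

`τ = (30 - K) / 25`, coordinates `x = i + (d - 1 - 5 j)`. For `5 ∣ d` the tube of the quintic is the block
`B5 25 K d` and the single point `x = -1`, `5 j = d`: `L7h14.NQ.s_DZ` applies. For `d ≡ 1` it is the block
and the points `x = 1, 2` at the height of the apex, after flattening `Fl 1 K A ∪ X3`.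
-/

namespace Pool.Agent.L7h14.QX

open Finset Pool.Agent.TH176.Nag Pool.Agent.TH603.Sur Pool.Agent.TH978.S13
open Pool.Agent.TH469.SX (Fl)
open Pool.Agent.TH864.SX (Slp)
open Pool.Agent.L7h43.QU (B5 E5)
open Pool.Agent.L7h14.NQ (sh)

/-- the point `(-1, d / 5)` -/
def Az5 (d : ℕ) : Set (ℤ × ℤ) := {p | p.1 = -1 ∧ 0 ≤ p.2 ∧ 5 * p.2 = d}

/-- **FLZ5** (60 lines): the first flattening, copy of `L7h65/NQ/Flz.lean` (s_FLZ) with `(d - 1) / 5` in place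
of `(2 d - 1) / 8`; the column `0` of `B5` is empty for `d % 5 ≠ 1`. -/
def S_FLZ5 : Prop := ∀ (M q : ℕ) (K : ℝ) (d : ℕ) (ι : Type) (w : ι → ℕ), Slp M q K → d % 5 ≠ 1 →
  Emp w (Fl q K (K * ((d - 1) / 5)) ∪ {((-1, 0) : ℤ × ℤ)}) → Emp w (B5 M K d ∪ Az5 d)

/-- **ONEZ5** (60 lines): copy of `L7h65/NQ/Flz.lean` (s_ONEZ) and of ONE; `x = i + (d - 1 - 5 j)`,
`τ = (30 - K) / 25` is between `0.16` and `0.2`. Row `e = d - 5 j = 0`: `i = 0`, `x = -1`. -/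
def S_ONEZ5 : Prop := ∀ (K : ℝ) (d : ℕ), Irrational K → 25 < K → K < 26 → 5 ∣ d →
  (∀ (ι : Type) (w : ι → ℕ), Emp w (B5 25 K d ∪ Az5 d) → Emp w (E5 ((30 - K) / 25) d)) ∧
  ∀ (ι : Type) [Fintype ι] (w : ι → ℕ), Sur w (B5 25 K d) → Sur w (E5 ((30 - K) / 25) d)

/-- the points `x = 1, 2` at the height `(d - 1) / 5` of the apex -/
def Y3 (d : ℕ) : Set (ℤ × ℤ) := {p | (p.1 = 1 ∨ p.1 = 2) ∧ 0 ≤ p.2 ∧ 5 * p.2 + 1 = d}

/-- three more points on the diagonal -/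
def X3 : Set (ℤ × ℤ) := {(0, 0), (1, 1), (2, 2)}

/-- **FLX** (120 lines): the first flattening for `d ≡ 1` modulo `5`, `η = (d - 1) / 5 ≥ 2` an integer. The
column `0` of `B5 ∪ Y3` is the point `(0, η)`; the column `1` is `η - 1, η`; the column `2` is
`η - 2, η - 1, η`; the column `t` of `B5` has `t` consecutive points (cut by `0 ≤ j`), at most at the height
`η - t / K`. Copy `L7h65/NQ/Fle.lean` (s_FLE, s_FLS); for `Sur` use `TH603.Sur.Sur_flat` as there. -/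
def S_FLX : Prop := ∀ (K : ℝ) (d : ℕ), Slp 25 1 K → d % 5 = 1 → 11 ≤ d →
  (∀ (ι : Type) (w : ι → ℕ), Emp w (Fl 1 K (K * ((d - 1) / 5)) ∪ X3) → Emp w (B5 25 K d ∪ Y3 d)) ∧
  ∀ (ι : Type) [Fintype ι] (w : ι → ℕ), Sur w (Fl 1 K (K * ((d - 1) / 5)) ∪ X3) → Sur w (B5 25 K d ∪ Y3 d)

/-- **ONEX5** (80 lines): `d ≡ 1` modulo `5`: in the coordinates `x = i + (d - 1 - 5 j)` the set
`E5 ((30 - K) / 25) d` is `B5 25 K d ∪ Y3 d` (row `e = d - 5 j = 1`: `i ∈ [-3 τ, 3 (1 - τ)]`, `τ` between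
`0.16` and `0.2`, so `i = 0, 1, 2`, and `x = i`; rows `e ≥ 6`: as in ONE). -/
def S_ONEX5 : Prop := ∀ (K : ℝ) (d : ℕ), Irrational K → 25 < K → K < 26 → d % 5 = 1 →
  (∀ (ι : Type) (w : ι → ℕ), Emp w (B5 25 K d ∪ Y3 d) → Emp w (E5 ((30 - K) / 25) d)) ∧
  ∀ (ι : Type) [Fintype ι] (w : ι → ℕ), Sur w (B5 25 K d ∪ Y3 d) → Sur w (E5 ((30 - K) / 25) d)

/-- **ROWX** (120 lines): below the critical height. Copy `TH469.SX.Emp_apex` (`Blk.lean`), `p = 2`, `q = 1`: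
`Emp_slabs 1 (-2) 1 0`, `c = x - 2 s`, `y = A - (K + 2) k = (K + 2)(m - k) + e`, `e < 0`. The columns `c ≥ 1`
reach the row `k` iff `c ≤ y`; the column `-j`, `j = 0, 1, 2`, is `s = j, j + 1, ...` (no gap, with the new
point) and reaches the row `k` iff `j (K + 1) ≤ y`; the column `-j`, `j ≥ 3`, iff `j (K + 1) ≤ y - (K + 2)`
(`mem_row`). If `3 K + 4 ≤ y` this is the situation of `row_card`. Otherwise the row has at most
`⌊y⌋ + 1 + [K + 1 ≤ y] + [2 K + 2 ≤ y]` elements and `y < (K + 2) l`, `l = m - k`, `K < M + 1`, so at most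
`(M + 4) l`: for `y < K + 1` it is `≤ M + 2`; for `K + 1 ≤ y < 2 K + 2` it is `≤ M + 4` if `l = 1` (`y < M + 3`) and
`≤ 2 M + 5` if `l ≥ 2`; for `2 K + 2 ≤ y` we have `l ≥ 2`, it is `≤ 2 M + 8` if `l = 2` (`y < 2 M + 6`) and
`≤ 3 M + 9` if `l ≥ 3`. No element if `y < 0`. -/
def S_ROWX : Prop := ∀ (M : ℕ) (K A : ℝ) (m : ℕ), Slp M 1 K → 0 ≤ A → A < (K + 2) * m →
  Emp (fun _ : Fin (M + 4) => m) (Fl 1 K A ∪ X3)

/-- **CNT** (80 lines): a lower bound for the number of points of `Fl 1 K A`: the rows after the second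
flattening. The points of the row `k` are the integers `c` with `-U ≤ c ≤ Y`, `Y = ⌊A - (K + 2) k⌋`,
`U = ⌊(A - (K + 2) k - 1) / (K + 1)⌋ - 1` (`Y + U + 1` of them); send `(c, k)` to `(c + 2 s, s)` with `s = k` if
`c ≥ 1` and `s = 1 - c + k` if `c ≤ 0`: injective, with values in `Fl 1 K A` (see the proof of
`TH469.SX.Sur_rows'`). -/
def S_CNT : Prop := ∀ (M : ℕ) (K A : ℝ) (m : ℕ), Slp M 1 K → (K + 2) * m ≤ A →
  ∃ T : Finset (ℤ × ℤ), (T : Set (ℤ × ℤ)) ⊆ Fl 1 K A ∧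
    ∑ k ∈ range m, (⌊A - (K + 2) * k⌋ + ⌊(A - (K + 2) * k - 1) / (K + 1)⌋) ≤ (T.card : ℤ)

/-- the eigenvalue on `(1 - Y)^k` of the operators `L` in the column `-j` -/
def ev (L : List (ℚ × ℚ)) (j k : ℕ) : ℚ := (L.map fun a => (k : ℚ) - a.1 + a.2 * j).prod

/-- **NZ** (200 lines): the analytic lemma. `ψ j` is a function in the column `-j` with lowest term
`Y⁻¹` and zero of order `κ j` at `Y = 1` and degree `< κ j`: it is `(1 - Y)^(κ j) / Y = ∑_(k ≥ κ j) T^k`,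
`T = 1 - Y`. The operator `opr α β` multiplies `T^k` in the column `-j` by `k - α + β j`, so `oprs (L s) (ψ j)`
is `∑_(k ≥ κ j) ev (L s) j k T^k = T^(r j + o s) (c_(s,j) + ...)`. The determinant of the values is (as a
Laurent polynomial in `Y`, expanded at `T = 0`) `T^(∑ r + ∑ o) (det c + ...)`, not zero, so it does not vanish at
some rational `y`. In Lean: (1) `tau (oprs (L s) (ψ j)) (-j) (dsc k) = ev (L s) j k * tau (ψ j) (-j) (dsc k)` is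
`tau_oprs`; (2) `tau (ψ j) (-j) (dsc k) = (-1)^k k!` for `k ≥ κ j`, `0` for `k < κ j` (uniqueness:
`eq_zero_of_tau_shift`, or only for the functions given by `exists_psi`); (3) a ring hom from
`LaurentPolynomial ℚ` to `PowerSeries ℚ`, `Y ↦ 1 - T` (`LaurentPolynomial.eval₂` with a unit), the coefficient of
`T^k` in `(1 - T)^b` is `(-1)^k dsc k b / k!` (`dsc_step`); (4) a nonzero Laurent polynomial does not vanish
at some rational `y ≠ 0, 1` (`exists_y` of `TH978/S13/Apex.lean`). -/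
def S_NZ : Prop := ∀ (n : ℕ) (L : Fin n → List (ℚ × ℚ)) (κ r o : Fin n → ℕ)
  (ψ : Fin n → ((ℤ × ℤ) →₀ ℚ)),
  (∀ j, ∀ p ∈ (ψ j).support, p.1 = -(j : ℤ) ∧ -1 ≤ p.2 ∧ p.2 < κ j) →
  (∀ j, ψ j (-(j : ℤ), -1) = 1) →
  (∀ j, ∀ k < κ j, tau (ψ j) (-(j : ℤ)) (fun b => dsc k (b + 1)) = 0) →
  (∀ s j, ∀ k, κ j ≤ k → k < r j + o s → ev (L s) j k = 0) →
  (∀ s j, κ j ≤ r j + o s) →
  (Matrix.of fun s j : Fin n => ev (L s) j (r j + o s)).det ≠ 0 →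
  ∃ y : ℚ, y ≠ 0 ∧ y ≠ 1 ∧
    (Matrix.of fun s j : Fin n => pr (oprs (L s) (ψ j)) 1 y (fun _ => 1)).det ≠ 0

/-- the rows `k < m - l` and the `l - 1` diagonals from `c + l = 1 - u` on -/
def Ls (m l u : ℕ) : List (ℚ × ℚ) :=
  (List.range (m - l)).map (fun k : ℕ => (((k : ℕ) : ℚ), (0 : ℚ))) ++
    (List.range (l - 1)).map (fun i : ℕ => ((m : ℚ) - (1 - u + i), (1 : ℚ)))

/-- **DET** (200 lines): the leading coefficients. `ev (Ls m l u) j (m - j + u)` is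
`∏_(k' < m - l) (m - j + u - k') * (l - 1)!`, that is `(m-j+u)! (l-1)! / (l-j+u)!` (zero if `l + u < j`). After
scaling the rows and columns the determinants are, with `n = m + u`, `z = l + u`:
`n₁ z₂ - n₂ z₁ > 0` (two rows) and `det (n (n-1), (n-1) z, z (z-1)) > 0` (three rows; checked by computer for
`m ≤ 12`; proof: with `r = z / n`, `q = (z-1)/(n-1)` the rows are `(1, r, r q)`; or expand in
`a = l₂ - l₁`, `b = l₃ - l₂`, `p = u₂ - u₁`, `q = u₃ - u₂`, `m - l₃`). -/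
def S_DET : Prop :=
  (∀ (m : ℕ) (l u : Fin 2 → ℕ), l 0 < l 1 → u 0 ≤ u 1 → (∀ s, 1 ≤ l s ∧ l s ≤ m ∧ u s < l s) →
    (Matrix.of fun s j : Fin 2 => ev (Ls m (l s) (u s)) j (m - j + u s)).det ≠ 0) ∧
  ∀ (m : ℕ) (l u : Fin 3 → ℕ), l 0 < l 1 → l 1 < l 2 → u 0 ≤ u 1 → u 1 ≤ u 2 →
    (∀ s, 1 ≤ l s ∧ l s ≤ m ∧ u s < l s) →
    (Matrix.of fun s j : Fin 3 => ev (Ls m (l s) (u s)) j (m - j + u s)).det ≠ 0

/-- the row `k` of the flattened block is deficient -/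
def Def (M : ℕ) (K A : ℝ) (m k : ℕ) : Prop :=
  k < m ∧ ⌊A - (K + 2) * k⌋ + ⌊(A - (K + 2) * k - 1) / (K + 1)⌋ < ((M : ℤ) + 4) * ((m : ℤ) - k)

/-- **MAIN** (helper14), from NZ and DET: two or three deficient rows -/
def S_MAIN : Prop := ∀ (M : ℕ) (K A : ℝ) (m : ℕ), Slp M 1 K → 3 ≤ M → (K + 2) * m ≤ A →
  A < (K + 2) * m + 1 →
  (∀ k₁ k₂ : ℕ, k₁ < k₂ → Def M K A m k₁ → Def M K A m k₂ →
    Emp (fun _ : Fin (M + 4) => m) (Fl 1 K A ∪ {((0, 0) : ℤ × ℤ), (1, 1)})) ∧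
  ∀ k₁ k₂ k₃ : ℕ, k₁ < k₂ → k₂ < k₃ → Def M K A m k₁ → Def M K A m k₂ → Def M K A m k₃ →
    Emp (fun _ : Fin (M + 4) => m) (Fl 1 K A ∪ X3)

/-- **DX** (120 lines) from ROWX, CNT, MAIN: `e = A - (K + 2) m`. `e ≥ 1`: `TH469.SX.Sur_blk`; `e < 0`: ROWX;
`0 ≤ e < 1`: no deficient row: `Sur_rows'`; at least three: MAIN; one (`TH469.SX.dich` / `step3_blk`, the point
`(0, 0)`) or two (MAIN, the points `(0, 0), (1, 1)`): `Emp` of `T ∪ {(0,0)}`, `T ∪ {(0,0), (1,1)}` with the `T`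
of CNT, and `cond ≤ card`: every deficient row has deficiency one (if some row has deficiency
`≥ 2` then `e (K + 2) < 1`, `m ≥ 3` and the rows `m - 1, m - 2, m - 3` are deficient), so this is `Sur`
(`Emp` gives `card ≤ cond`). -/
def S_DX : Prop := ∀ (M : ℕ) (K A : ℝ) (m : ℕ), Slp M 1 K → 3 ≤ M → 0 ≤ A →
  Emp (fun _ : Fin (M + 4) => m) (Fl 1 K A ∪ X3) ∨ Sur (fun _ : Fin (M + 4) => m) (Fl 1 K A ∪ X3)

end Pool.Agent.L7h14.QX
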