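import Pool.Agent.L7h14.QX.Stm
import Pool.Agent.L7h52.NQ.Num
import Pool.Agent.TH641.UM.Ones

/-!
# Project QX: 29 points, emptiness or independence in ALL degrees
-/

set_option autoImplicit false

namespace Pool.Agent.L7h14.QX

open Finset Pool.Agent.TH176.Nag Pool.Agent.TH603.Sur Pool.Agent.TH603.Cut
open Pool.Agent.TH469.SX (Fl)
open Pool.Agent.TH864.SX (Slp)
open Pool.Agent.L7h43.QU (B5 E5)
open Pool.Agent.L7h52.NQ (dich_zero Emp_fin Sur_fin s_DICH irr_add_mul)
open Pool.Agent.L7h14.NQ (S_DZ)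

/-- what the parts give -/
structure Parts : Prop where
  emp : L7h43.QU.S_EMP
  sur : L7h43.QU.S_SUR
  fle : L7h43.QU.S_FLE
  fls : L7h43.QU.S_FLS
  one : L7h43.QU.S_ONE
  flz : S_FLZ5
  onez : S_ONEZ5
  flx : S_FLX
  onex : S_ONEX5
  dx : S_DX
  dz : S_DZ

theorem nsq29 : ¬ IsSquare (29 : ℕ) := by
  rintro ⟨a, ha⟩
  have : a < 6 := by nlinarith
  interval_cases a <;> omega

theorem sq29 : √((29 : ℕ) : ℝ) * √((29 : ℕ) : ℝ) = 29 := by
  rw [Real.mul_self_sqrt (by norm_num)]; norm_num

/-- the slope for 29 points -/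
noncomputable def K29 : ℝ := (((25 : ℕ) : ℝ) + (5 : ℕ) * √((29 : ℕ) : ℝ)) / (2 : ℕ)

theorem slp29 : Slp 25 1 K29 := by
  have h0 : 0 ≤ √((29 : ℕ) : ℝ) := Real.sqrt_nonneg _
  have hq := sq29
  refine ⟨by norm_num, by norm_num, ?_, ?_, ?_⟩
  · unfold K29; push_cast at *; nlinarith
  · unfold K29; push_cast at *; nlinarith
  · exact (irr_add_mul nsq29 25 5 (by norm_num)).div_natCast (by norm_num)

theorem lt29 : K29 < 26 := by
  have h0 : 0 ≤ √((29 : ℕ) : ℝ) := Real.sqrt_nonneg _
  have hq := sq29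
  unfold K29; push_cast at *; nlinarith

/-- the two small degrees `1` and `6` -/
theorem small29 (m d : ℕ) (hd : d = 1 ∨ d = 6) :
    Emp (fun _ : Fin 29 => m) (TZ d) ∨ Sur (fun _ : Fin 29 => m) (TZ d) := by
  rcases Nat.eq_zero_or_pos m with rfl | hm
  · right
    refine ⟨∅, by simp, by simp [Pool.Agent.TH603.Sur.cond], ?_⟩
    exact Emp_none (by simp)
  left
  by_cases hm1 : m = 1 ∧ d = 6
  · obtain ⟨rfl, rfl⟩ := hm1
    have h1 : Sur (fun _ : Fin 0 => 0) (TZ 6) := by
      refine ⟨∅, by simp, by simp [Pool.Agent.TH603.Sur.cond], ?_⟩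
      exact Emp_none (by simp)
    have h2 := Pool.Agent.TH641.UM.Emp_ones (p := 29) h1 (by
      have : (6 + 2).choose 2 = 28 := by decide
      rw [this]
      omega)
    refine Emp_fin (ι := Fin 0 ⊕ Fin 29) ?_ (by simp) h2
    rintro (i | i)
    · exact i.elim0
    · rfl
  · refine Pool.Agent.TH603.EL.Emp_plane (by simp) ?_
    have h5 : √(29 : ℝ) < 6 := by
      rw [Real.sqrt_lt' (by norm_num)]; norm_num
    simp only [Finset.sum_const, Finset.card_univ, Fintype.card_fin, nsmul_eq_mul]
    push_cast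
    have hmR : (1 : ℝ) ≤ m := by exact_mod_cast hm
    rcases hd with rfl | rfl
    · push_cast; linarith
    · have h2 : 2 ≤ m := by
        by_contra hcon
        exact hm1 ⟨by omega, rfl⟩
      have h2R : (2 : ℝ) ≤ m := by exact_mod_cast h2
      push_cast
      linarith

/-- **29 points of one multiplicity: emptiness or independence, in every degree** -/
theorem dich29all (P : Parts) (m d : ℕ) :
    Emp (fun _ : Fin 29 => m) (TZ d) ∨ Sur (fun _ : Fin 29 => m) (TZ d) := by
  have h := slp29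
  have hlt := lt29
  have h25 : (25 : ℝ) < K29 := by have := h.hMK; push_cast at this; exact this
  have hi35 : Irrational ((35 - K29) / 25) := by
    have := (h.irr.natCast_sub 35).div_natCast (m := 25) (by norm_num)
    simpa using this
  have hi30 : Irrational ((30 - K29) / 25) := by
    have := (h.irr.natCast_sub 30).div_natCast (m := 25) (by norm_num)
    simpa using this
  rcases Nat.eq_zero_or_pos d with rfl | hd
  · exact dich_zero (by norm_num) m
  have hA : 0 ≤ K29 * (((d : ℝ) - 1) / 5) := by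
    have : (1 : ℝ) ≤ d := by exact_mod_cast hd
    apply mul_nonneg h.K0.le
    linarith
  have hmod : d % 5 = 0 ∨ d % 5 = 1 ∨ d % 5 = 2 ∨ (d % 5 = 3 ∨ d % 5 = 4) := by omega
  rcases hmod with h0 | h1 | h2 | h34
  · -- `5 ∣ d`
    rcases P.dz 25 K29 _ m h hA with hE | hS
    · left
      have e1 := P.flz 25 1 K29 d (Fin 29) (fun _ => m) h (by omega) hE
      have e2 := (P.onez K29 d h.irr h25 hlt (by omega)).1 (Fin 29) (fun _ => m) e1
      exact P.emp _ _ d ((30 - K29) / 25) (by linarith) (by linarith) e2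
    · right
      have e1 := P.fls 25 1 K29 d (Fin 29) (fun _ => m) h hS
      have e2 := (P.onez K29 d h.irr h25 hlt (by omega)).2 (Fin 29) (fun _ => m) e1
      exact P.sur _ _ d ((30 - K29) / 25) (by linarith) (by linarith) hi30 e2
  · -- `d ≡ 1`
    by_cases h11 : 11 ≤ d
    · rcases P.dx 25 K29 _ m h (by norm_num) hA with hE | hS
      · left
        have e1 := (P.flx K29 d h h1 h11).1 (Fin 29) (fun _ => m) hE
        have e2 := (P.onex K29 d h.irr h25 hlt h1).1 (Fin 29) (fun _ => m) e1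
        exact P.emp _ _ d ((30 - K29) / 25) (by linarith) (by linarith) e2
      · right
        have e1 := (P.flx K29 d h h1 h11).2 (Fin 29) (fun _ => m) hS
        have e2 := (P.onex K29 d h.irr h25 hlt h1).2 (Fin 29) (fun _ => m) e1
        exact P.sur _ _ d ((30 - K29) / 25) (by linarith) (by linarith) hi30 e2
    · exact small29 m d (by omega)
  · -- `d ≡ 2`
    rcases s_DICH 25 K29 _ m h hA with hE | hS
    · left
      have e1 := (P.fle 25 1 K29 d (Fin 29) (fun _ => m) h (by omega)).2 hE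
      have e2 := (P.one K29 d h.irr h25 hlt).2.1 h2 (Fin 29) (fun _ => m) e1
      exact P.emp _ _ d ((35 - K29) / 25) (by linarith) (by linarith) e2
    · right
      have e1 := P.fls 25 1 K29 d (Fin 29) (fun _ => m) h hS
      have e2 := (P.one K29 d h.irr h25 hlt).2.2 (Fin 29) (fun _ => m) e1
      exact P.sur _ _ d ((35 - K29) / 25) (by linarith) (by linarith) hi35 e2
  · -- `d ≡ 3, 4`
    rcases s_DICH 25 K29 _ m h hA with hE | hS
    · left
      have e1 := (P.fle 25 1 K29 d (Fin 29) (fun _ => m) h (by omega)).1 (hE.mono Set.subset_union_left)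
      have e2 := (P.one K29 d h.irr h25 hlt).1 h34 (Fin 29) (fun _ => m) e1
      exact P.emp _ _ d ((35 - K29) / 25) (by linarith) (by linarith) e2
    · right
      have e1 := P.fls 25 1 K29 d (Fin 29) (fun _ => m) h hS
      have e2 := (P.one K29 d h.irr h25 hlt).2.2 (Fin 29) (fun _ => m) e1
      exact P.sur _ _ d ((35 - K29) / 25) (by linarith) (by linarith) hi35 e2

end Pool.Agent.L7h14.QX
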